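import Pool.Agent.Lib.MP_b9add9_lc.helper78.Transl
import Pool.Agent.Lib.PolyTime.Raw
import Pool.Agent.Lib.PolyTime.More
import Pool.Prelude.Def_F_c21d359f

/-!
# From the polynomial-time functions of the problem to `PT`, and back
-/

namespace Pool.Agent.Lib.MP_b9add9_lc.FP

open Pool.Agent.PolyTime Function Computability Turing Polynomial

attribute [fun_prop] PT.pow PT.foldr PT.dropLast PT.find? PT.sum PT.optionMap PT.optionBind

variable {α β γ : Type*} [Rep α] [Rep β] [Rep γ]

@[fun_prop]
theorem pt_polyEval (q : Polynomial ℕ) {f : α → ℕ} (hf : PT f) :
    PT (fun a => q.eval (f a)) := by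
  induction q using Polynomial.induction_on' with
  | add p q hp hq => simp only [eval_add]; exact hp.add hq
  | monomial n c => simp only [eval_monomial]; exact (PT.const c).mul (hf.pow n)

/-- The encoding of bit strings used in the problem. -/
def encL (l : List Bool) : List Bool := l.flatMap fun b => [true, b, false]

theorem bitEncode_list (l : List Bool) : N487b59b3.bitEncode l = encL l := by
  change ((l.map N487b59b3.bitEncode).map N487b59b3.delimit).flatten = _
  induction l with
  | nil => rfl
  | cons b l ih =>
    rw [List.map_cons, List.map_cons, List.flatten_cons, ih]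
    rfl

theorem delimit_append (z r : List Bool) : N487b59b3.delimit z ++ r = pairStr z r := by
  induction z with
  | nil => rfl
  | cons b z ih =>
    simp only [N487b59b3.delimit, List.cons_append, ih]
    rfl

/-- The encoding of pairs of bit strings used in the problem. -/
def encP (x w : List Bool) : List Bool := pairStr (encL x) (encL w)

theorem bitEncode_pair (p : List Bool × List Bool) :
    N487b59b3.bitEncode p = encP p.1 p.2 := by
  change N487b59b3.delimit (N487b59b3.bitEncode p.1) ++ N487b59b3.bitEncode p.2 = _
  rw [delimit_append, bitEncode_list, bitEncode_list]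
  rfl

theorem encL_length (l : List Bool) : (encL l).length = 3 * l.length := by
  induction l with
  | nil => rfl
  | cons b l ih =>
    simp only [encL, List.flatMap_cons, List.length_append, List.length_cons,
      List.length_nil] at ih ⊢
    omega

theorem pairStr_length (u v : List Bool) : (pairStr u v).length = 2 * u.length + 1 + v.length := by
  unfold pairStr
  induction u with
  | nil => simp; omega
  | cons b u ih =>
    simp only [List.flatMap_cons, List.length_append, List.length_cons, List.length_nil] at ih ⊢
    omega

theorem encP_length (x w : List Bool) : (encP x w).length = 6 * x.length + 1 + 3 * w.length := by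
  unfold encP
  rw [pairStr_length, encL_length, encL_length]
  omega

@[fun_prop]
theorem pt_encL {f : α → List Bool} (hf : PT f) : PT (fun a => encL (f a)) := by
  unfold encL; fun_prop

@[fun_prop]
theorem pt_pairStr {f g : α → List Bool} (hf : PT f) (hg : PT g) :
    PT (fun a => pairStr (f a) (g a)) := by
  unfold pairStr; fun_prop

@[fun_prop]
theorem pt_encP {f g : α → List Bool} (hf : PT f) (hg : PT g) :
    PT (fun a => encP (f a) (g a)) := by
  unfold encP; fun_prop

/-- Decoding of bit strings. -/
def decL (l : List Bool) : List Bool :=
  (List.range (l.length / 3)).map fun j => l.getD (3 * j + 1) false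

theorem decL_encL (l : List Bool) : decL (encL l) = l := by
  have key : ∀ (l : List Bool) (j : ℕ), (encL l).getD (3 * j + 1) false = l.getD j false := by
    intro l
    induction l with
    | nil => intro j; rfl
    | cons b l ih =>
      intro j
      cases j with
      | zero => rfl
      | succ j =>
        have e : 3 * (j + 1) + 1 = (3 * j + 1) + 1 + 1 + 1 := by ring
        rw [e]
        have := ih j
        simpa [encL] using this
  unfold decL
  rw [encL_length]
  apply List.ext_getElem
  · simp
  · intro i h1 h2
    simp only [List.getElem_map, List.getElem_range, key]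
    rw [List.getD_eq_getElem _ _ h2]

@[fun_prop]
theorem pt_decL {f : α → List Bool} (hf : PT f) : PT (fun a => decL (f a)) := by
  unfold decL; fun_prop

/-- Input formats that can be decoded. -/
theorem inFmt_of_dec {ea : α → List Bool} {dec : List Bool → α} (hd : PT dec)
    (h : ∀ a, dec (ea a) = a) : InFmt ea := by
  obtain ⟨p0, b0, h0⟩ := inFmt_raw
  obtain ⟨p, b, hp⟩ := hd
  refine ⟨.seq p0 p, b0 + b.comp (4 * X + 1), fun a => ?_⟩
  have g1 := h0 (ea a)
  have g2 := hp (ea a) [] [] [] [] [] []
  rw [List.append_nil, List.append_nil] at g2
  simp only [h] at g1 g2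
  refine (Run.seq g1 g2).mono ?_
  have h1 : sz (ea a) ≤ 4 * (ea a).length + 1 := by
    generalize ea a = l
    induction l with
    | nil => simp
    | cons b l ih =>
      have := sz_bool b
      rw [sz_cons, List.length_cons]
      omega
  simp only [eval_add, eval_comp, eval_mul, eval_X, eval_one, eval_ofNat]
  exact Nat.add_le_add_left (poly_mono b h1) _

/-- Decoding of pairs of bit strings. -/
def decP (l : List Bool) : List Bool × List Bool :=
  (decL (unpairStr l).1, decL (unpairStr l).2)

theorem decP_encP (x w : List Bool) : decP (encP x w) = (x, w) := by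
  unfold decP encP
  rw [unpairStr_pairStr, decL_encL, decL_encL]

theorem pt_decP : PT decP :=
  PT.pair (pt_decL (pt_unpairStr PT.id).fst) (pt_decL (pt_unpairStr PT.id).snd)

/-- Predicates on pairs of strings in `PT` are polynomial-time computable in the sense of the
problem. -/
theorem isPolyTime_of_pt {R : List Bool × List Bool → Bool} (h : PT R) :
    N68a2faeb.IsPolyTime R := by
  have h1 : Nonempty (TM2ComputableInPolyTime
      (fun p : List Bool × List Bool => encP p.1 p.2) (encodeBool : Bool → List Bool) R) :=
    PT.tm2Fmt (inFmt_of_dec pt_decP fun a => decP_encP a.1 a.2) outFmt_bool h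
  have e1 : (N487b59b3.toEncoding (α := List Bool × List Bool)).encode =
      fun p : List Bool × List Bool => encP p.1 p.2 := funext fun p => bitEncode_pair p
  have e2 : (N487b59b3.toEncoding (α := Bool)).encode = (encodeBool : Bool → List Bool) :=
    funext fun b => rfl
  unfold N68a2faeb.IsPolyTime N68a2faeb.IsPolyTimeWithEncoding
  rw [e1, e2]
  exact h1

/-- Polynomial-time predicates in the sense of the problem are in `PT`. -/
theorem pt_of_isPolyTime {R : List Bool × List Bool → Bool} (h : N68a2faeb.IsPolyTime R) :
    PT R := by
  obtain ⟨M⟩ := h
  obtain ⟨c, C, hc⟩ := exists_code M.toTM2ComputableInTime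
  have h1 : PT (fun p : List Bool × List Bool =>
      ((U c (encP p.1 p.2) (C * M.time.eval (encP p.1 p.2).length)).getD []).headD false) := by
    fun_prop
  refine h1.congr fun p => ?_
  have e : (N487b59b3.toEncoding (α := List Bool × List Bool)).encode p = encP p.1 p.2 :=
    bitEncode_pair p
  have h2 := hc p (C * M.time.eval (encP p.1 p.2).length) (by rw [e]; exact le_rfl)
  rw [e] at h2
  rw [h2]
  rfl

end Pool.Agent.Lib.MP_b9add9_lc.FP
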