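import Pool.Agent.Lib.MP_b9add9_lc.helper78.Interp
import Mathlib.Data.Fintype.EquivFin

/-!
# Every machine has a code
-/

namespace Pool.Agent.Lib.MP_b9add9_lc.FP

open Pool.Agent.PolyTime Turing Turing.TM2 Function

theorem step_ofList (p : T) (q : ℕ) (S : List (List ℕ)) (kind k : ℕ) (tb : T)
    (h : ent p q = ofList [ofNum kind, ofNum k, tb]) :
    FP.step p (q, S) =
    if kind = 0 then
      (entN tb (topN (S.getD k [])),
        setAt S k (S.getD k []).tail)
    else if kind = 1 then
      (entN tb (topN (S.getD k [])), S)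
    else (entN tb 1, setAt S k (entN tb 0 :: S.getD k [])) := by
  have e0 : entN (ofList [ofNum kind, ofNum k, tb]) 0 = kind := by simp [entN, ent]
  have e1 : entN (ofList [ofNum kind, ofNum k, tb]) 1 = k := by simp [entN, ent]
  have e2 : ent (ofList [ofNum kind, ofNum k, tb]) 2 = tb := by simp [ent]
  have e3 : (tlist (ofList [ofNum kind, ofNum k, tb])).isEmpty = false := by simp
  unfold FP.step
  simp only [h, e0, e1, e2, e3, Bool.false_eq_true, if_false]

section
variable {K : Type} [DecidableEq K] [Fintype K] {Γ : K → Type}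
  {Λ : Type} [Fintype Λ] {σ : Type} [Fintype σ] (L : ∀ k, List (Γ k))

/-- Number of a stack. -/
noncomputable def kn (k : K) : ℕ := (Fintype.equivFin K k : ℕ)

open Classical in
/-- Number of a symbol: its first position in the list `L k`. -/
noncomputable def sn (k : K) (a : Γ k) : ℕ := (L k).idxOf a

theorem sn_inj {k : K} {a b : Γ k} (ha : a ∈ L k) (h : sn L k a = sn L k b) : a = b := by
  classical
  unfold sn at h
  exact (List.idxOf_inj ha).1 h

/-- Stacks of numbers. -/
noncomputable def encS (S : ∀ k, List (Γ k)) : List (List ℕ) :=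
  List.ofFn fun i : Fin (Fintype.card K) =>
    (S ((Fintype.equivFin K).symm i)).map (sn L ((Fintype.equivFin K).symm i))

theorem getD_encS (S : ∀ k, List (Γ k)) (k : K) :
    (encS L S).getD (kn k) [] = (S k).map (sn L k) := by
  unfold encS kn
  rw [List.getD_eq_getElem _ _ (by simp)]
  simp only [List.getElem_ofFn, Fin.eta]
  rw [Equiv.symm_apply_apply]

theorem length_encS (S : ∀ k, List (Γ k)) : (encS L S).length = Fintype.card K := by
  simp [encS]

theorem kn_lt (k : K) : kn k < Fintype.card K := by unfold kn; exact Fin.isLt _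

theorem setAt_encS (S : ∀ k, List (Γ k)) (k : K) (l : List (Γ k)) :
    setAt (encS L S) (kn k) (l.map (sn L k)) = encS L (update S k l) := by
  have hk := kn_lt k
  apply List.ext_getElem
  · simp only [setAt, List.length_append, List.length_take, List.length_cons, List.length_drop,
      length_encS]
    omega
  · intro i h1 h2
    rw [length_encS] at h2
    have e2 : (encS L (update S k l))[i]'(by rw [length_encS]; exact h2) =
        (update S k l ((Fintype.equivFin K).symm ⟨i, h2⟩)).map
          (sn L ((Fintype.equivFin K).symm ⟨i, h2⟩)) := by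
      simp [encS]
    rw [e2]
    by_cases hi : i = kn k
    · have e3 : (Fintype.equivFin K).symm ⟨i, h2⟩ = k := by
        rw [Equiv.symm_apply_eq]
        exact Fin.ext hi
      rw [e3, update_self]
      simp only [setAt]
      rw [List.getElem_append_right (by simp; omega)]
      have : i - (List.take (kn k) (encS L S)).length = 0 := by
        rw [List.length_take, length_encS]; omega
      simp only [this, List.getElem_cons_zero]
    · have e3 : (Fintype.equivFin K).symm ⟨i, h2⟩ ≠ k := by
        intro h
        rw [Equiv.symm_apply_eq] at h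
        exact hi (congrArg Fin.val h)
      rw [update_of_ne e3]
      have e4 : (encS L S)[i]'(by rw [length_encS]; exact h2) =
        (S ((Fintype.equivFin K).symm ⟨i, h2⟩)).map
          (sn L ((Fintype.equivFin K).symm ⟨i, h2⟩)) := by
        simp [encS]
      rw [← e4]
      simp only [setAt]
      rcases Nat.lt_or_ge i (kn k) with hlt | hge
      · rw [List.getElem_append_left (by rw [List.length_take, length_encS]; omega),
          List.getElem_take]
      · have hl : (List.take (kn k) (encS L S)).length = kn k := by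
          rw [List.length_take, length_encS]; omega
        rw [List.getElem_append_right (by omega)]
        obtain ⟨d, hd⟩ : ∃ d, i = kn k + 1 + d := ⟨i - (kn k + 1), by omega⟩
        subst hd
        have : kn k + 1 + d - (List.take (kn k) (encS L S)).length = d + 1 := by omega
        simp only [this, List.getElem_cons_succ, List.getElem_drop]

variable (M : Λ → Stmt Γ Λ σ)

/-- All statements occurring in the machine. -/
noncomputable def allSt : Finset (Stmt Γ Λ σ) := by
  classical exact Finset.univ.biUnion fun l => stmts₁ (M l)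

theorem mem_allSt (l : Λ) : M l ∈ allSt M := by
  classical
  unfold allSt
  exact Finset.mem_biUnion.2 ⟨l, Finset.mem_univ _, stmts₁_self⟩

theorem allSt_trans {q q' : Stmt Γ Λ σ} (h : q' ∈ stmts₁ q) (hq : q ∈ allSt M) :
    q' ∈ allSt M := by
  classical
  unfold allSt at hq ⊢
  obtain ⟨l, hl, hq⟩ := Finset.mem_biUnion.1 hq
  exact Finset.mem_biUnion.2 ⟨l, hl, stmts₁_trans hq h⟩

/-- Numbering of the states. -/
noncomputable def stEquiv : ({q // q ∈ allSt M} × σ) ≃ Fin (Fintype.card ({q // q ∈ allSt M} × σ)) :=
  Fintype.equivFin _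

open Classical in
/-- Number of a state. -/
noncomputable def qn (q : Stmt Γ Λ σ) (v : σ) : ℕ :=
  if h : q ∈ allSt M then (stEquiv M (⟨q, h⟩, v) : ℕ) else 0

/-- A table indexed by the possible top symbols of a stack. -/
noncomputable def tab (k : K) (g : Option (Γ k) → ℕ) : T :=
  ofList (ofNum (g none) :: (L k).map fun a => ofNum (g (some a)))

theorem entN_tab (k : K) (g : Option (Γ k) → ℕ) (l : List (Γ k)) (hl : ∀ a ∈ l, a ∈ L k) :
    entN (tab L k g) (topN (l.map (sn L k))) = g l.head? := by
  classical
  cases l with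
  | nil => simp [entN, ent, tab, topN]
  | cons a l =>
    have ha : a ∈ L k := hl a (by simp)
    have h1 : sn L k a < (L k).length := by
      unfold sn
      exact List.idxOf_lt_length_of_mem ha
    simp only [List.map_cons, topN, entN, ent, tab, tlist_ofList, List.getD_cons_succ,
      List.head?_cons]
    rw [List.getD_eq_getElem _ _ (by simpa using h1)]
    simp only [List.getElem_map, tnum_ofNum]
    congr 2
    unfold sn
    exact List.getElem_idxOf _

/-- The instruction of a state. -/
noncomputable def instr (k0 : K) : Stmt Γ Λ σ → σ → T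
  | .push k f q, v => ofList [ofNum 2, ofNum (kn k),
      ofList [ofNum (sn L k (f v)), ofNum (qn M q v)]]
  | .peek k f q, v => ofList [ofNum 1, ofNum (kn k), tab L k fun o => qn M q (f v o)]
  | .pop k f q, v => ofList [ofNum 0, ofNum (kn k), tab L k fun o => qn M q (f v o)]
  | .load a q, v => ofList [ofNum 1, ofNum (kn k0), tab L k0 fun _ => qn M q (a v)]
  | .branch p q₁ q₂, v => ofList [ofNum 1, ofNum (kn k0),
      tab L k0 fun _ => qn M (cond (p v) q₁ q₂) v]
  | .goto l, v => ofList [ofNum 1, ofNum (kn k0), tab L k0 fun _ => qn M (M (l v)) v]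
  | .halt, _ => .nil

/-- The program. -/
noncomputable def prog (k0 : K) : T :=
  ofList (List.ofFn fun i : Fin (Fintype.card ({q // q ∈ allSt M} × σ)) =>
    instr L M k0 ((stEquiv M).symm i).1.1 ((stEquiv M).symm i).2)

theorem ent_prog (k0 : K) {q : Stmt Γ Λ σ} (hq : q ∈ allSt M) (v : σ) :
    ent (prog L M k0) (qn M q v) = instr L M k0 q v := by
  unfold ent prog qn
  rw [dif_pos hq, tlist_ofList, List.getD_eq_getElem _ _ (by
    rw [List.length_ofFn]; exact Fin.isLt _)]
  simp only [List.getElem_ofFn, Fin.eta, Equiv.symm_apply_apply]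

/-- Size of a statement. -/
def ssize : Stmt Γ Λ σ → ℕ
  | .push _ _ q => ssize q + 1
  | .peek _ _ q => ssize q + 1
  | .pop _ _ q => ssize q + 1
  | .load _ q => ssize q + 1
  | .branch _ q₁ q₂ => ssize q₁ + ssize q₂ + 1
  | .goto _ => 1
  | .halt => 1

/-- All symbols pushed by a statement are in the lists `L k`. -/
def okS : Stmt Γ Λ σ → Prop
  | .push k f q => (∀ v, f v ∈ L k) ∧ okS q
  | .peek _ _ q => okS q
  | .pop _ _ q => okS q
  | .load _ q => okS q
  | .branch _ q₁ q₂ => okS q₁ ∧ okS q₂
  | .goto _ => True
  | .halt => True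

/-- All symbols on the stacks are in the lists `L k`. -/
def Live (S : ∀ k, List (Γ k)) : Prop := ∀ k, ∀ a ∈ S k, a ∈ L k

theorem Live.update {S : ∀ k, List (Γ k)} (h : Live L S) {k : K} {l : List (Γ k)}
    (hl : ∀ a ∈ l, a ∈ L k) : Live L (update S k l) := by
  intro k' a ha
  by_cases hk : k' = k
  · subst hk
    rw [update_self] at ha
    exact hl a ha
  · rw [update_of_ne hk] at ha
    exact h k' a ha

/-- A configuration of the interpreter represents a configuration of the machine. -/
def Rel (k0 : K) (c : TM2.Cfg Γ Λ σ) (d : Conf) : Prop :=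
  Live L c.stk ∧ d.2 = encS L c.stk ∧ match c.l with
    | some l => d.1 = qn M (M l) c.var
    | none => (tlist (ent (prog L M k0) d.1)).isEmpty = true

theorem step_look (k0 : K) {q : Stmt Γ Λ σ} {v : σ} (k : K) (g : Option (Γ k) → ℕ)
    (h : ent (prog L M k0) (qn M q v) = ofList [ofNum 1, ofNum (kn k), tab L k g])
    (S : ∀ k, List (Γ k)) (hS : Live L S) :
    FP.step (prog L M k0) (qn M q v, encS L S) = (g (S k).head?, encS L S) := by
  rw [step_ofList _ _ _ _ _ _ h, if_neg Nat.one_ne_zero, if_pos rfl, getD_encS,
    entN_tab L k g _ (hS k)]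

theorem sim1 (k0 : K) : ∀ (q : Stmt Γ Λ σ), q ∈ allSt M → okS L q →
    ∀ (v : σ) (S : ∀ k, List (Γ k)), Live L S →
    ∃ t ≤ ssize q, Rel L M k0 (stepAux q v S)
      ((FP.step (prog L M k0))^[t] (qn M q v, encS L S)) := by
  classical
  intro q
  induction q with
  | push k f q ih =>
    intro hq hok v S hS
    have hq' : q ∈ allSt M := allSt_trans M (by
      simp only [stmts₁]; exact Finset.mem_insert_of_mem stmts₁_self) hq
    have hS' : Live L (update S k (f v :: S k)) := by
      refine hS.update L ?_
      intro a ha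
      rcases List.mem_cons.1 ha with rfl | ha
      · exact hok.1 v
      · exact hS k a ha
    obtain ⟨t, ht, h⟩ := ih hq' hok.2 v (update S k (f v :: S k)) hS'
    refine ⟨t + 1, by simp only [ssize]; omega, ?_⟩
    rw [iterate_succ_apply]
    have e := ent_prog L M k0 hq v
    have e2 : FP.step (prog L M k0) (qn M (.push k f q) v, encS L S) =
        (qn M q v, encS L (update S k (f v :: S k))) := by
      rw [step_ofList _ _ _ _ _ _ e, if_neg (by norm_num), if_neg (by norm_num), getD_encS,
        ← setAt_encS]
      simp [entN, ent]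
    rw [e2, stepAux]
    exact h
  | peek k f q ih =>
    intro hq hok v S hS
    have hq' : q ∈ allSt M := allSt_trans M (by
      simp only [stmts₁]; exact Finset.mem_insert_of_mem stmts₁_self) hq
    obtain ⟨t, ht, h⟩ := ih hq' hok (f v (S k).head?) S hS
    refine ⟨t + 1, by simp only [ssize]; omega, ?_⟩
    rw [iterate_succ_apply, step_look L M k0 k (fun o => qn M q (f v o))
      (ent_prog L M k0 hq v) S hS, stepAux]
    exact h
  | pop k f q ih =>
    intro hq hok v S hS
    have hq' : q ∈ allSt M := allSt_trans M (by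
      simp only [stmts₁]; exact Finset.mem_insert_of_mem stmts₁_self) hq
    have hS' : Live L (update S k (S k).tail) :=
      hS.update L fun a ha => hS k a (List.mem_of_mem_tail ha)
    obtain ⟨t, ht, h⟩ := ih hq' hok (f v (S k).head?) (update S k (S k).tail) hS'
    refine ⟨t + 1, by simp only [ssize]; omega, ?_⟩
    rw [iterate_succ_apply]
    have e := ent_prog L M k0 hq v
    have e2 : FP.step (prog L M k0) (qn M (.pop k f q) v, encS L S) =
        (qn M q (f v (S k).head?), encS L (update S k (S k).tail)) := by
      rw [step_ofList _ _ _ _ _ _ e, if_pos rfl, getD_encS, ← setAt_encS,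
        entN_tab L k _ _ (hS k), List.map_tail]
    rw [e2, stepAux]
    exact h
  | load a q ih =>
    intro hq hok v S hS
    have hq' : q ∈ allSt M := allSt_trans M (by
      simp only [stmts₁]; exact Finset.mem_insert_of_mem stmts₁_self) hq
    obtain ⟨t, ht, h⟩ := ih hq' hok (a v) S hS
    refine ⟨t + 1, by simp only [ssize]; omega, ?_⟩
    rw [iterate_succ_apply, step_look L M k0 k0 (fun _ => qn M q (a v))
      (ent_prog L M k0 hq v) S hS, stepAux]
    exact h
  | branch p q₁ q₂ ih₁ ih₂ =>
    intro hq hok v S hS
    have hq₁ : q₁ ∈ allSt M := allSt_trans M (by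
      simp only [stmts₁]
      exact Finset.mem_insert_of_mem (Finset.mem_union_left _ stmts₁_self)) hq
    have hq₂ : q₂ ∈ allSt M := allSt_trans M (by
      simp only [stmts₁]
      exact Finset.mem_insert_of_mem (Finset.mem_union_right _ stmts₁_self)) hq
    rw [stepAux]
    cases hp : p v
    · obtain ⟨t, ht, h⟩ := ih₂ hq₂ hok.2 v S hS
      refine ⟨t + 1, by simp only [ssize]; omega, ?_⟩
      rw [iterate_succ_apply, step_look L M k0 k0 (fun _ => qn M (cond (p v) q₁ q₂) v)
        (ent_prog L M k0 hq v) S hS]
      simp only [hp, cond_false]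
      exact h
    · obtain ⟨t, ht, h⟩ := ih₁ hq₁ hok.1 v S hS
      refine ⟨t + 1, by simp only [ssize]; omega, ?_⟩
      rw [iterate_succ_apply, step_look L M k0 k0 (fun _ => qn M (cond (p v) q₁ q₂) v)
        (ent_prog L M k0 hq v) S hS]
      simp only [hp, cond_true]
      exact h
  | goto l =>
    intro hq hok v S hS
    refine ⟨1, by simp only [ssize]; omega, ?_⟩
    rw [iterate_one, step_look L M k0 k0 (fun _ => qn M (M (l v)) v)
      (ent_prog L M k0 hq v) S hS, stepAux]
    exact ⟨hS, rfl, rfl⟩
  | halt =>
    intro hq hok v S hS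
    refine ⟨0, by omega, ?_⟩
    rw [iterate_zero, id, stepAux]
    refine ⟨hS, rfl, ?_⟩
    change (tlist (ent (prog L M k0) (qn M .halt v))).isEmpty = true
    rw [ent_prog L M k0 hq v]
    rfl

/-- Bound for the sizes of the statements. -/
noncomputable def bigC : ℕ := (allSt M).sup ssize

theorem simn (hM : ∀ l, okS L (M l)) (k0 : K) (n : ℕ) :
    ∀ (c : TM2.Cfg Γ Λ σ) (d : Conf) (c' : TM2.Cfg Γ Λ σ),
    Rel L M k0 c d → (flip bind (TM2.step M))^[n] (some c) = some c' →
    ∃ t ≤ n * bigC M, Rel L M k0 c' ((FP.step (prog L M k0))^[t] d) := by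
  induction n with
  | zero =>
    intro c d c' hR h
    rw [iterate_zero, id, Option.some_inj] at h
    subst h
    exact ⟨0, by omega, hR⟩
  | succ n ih =>
    intro c d c' hR h
    rw [iterate_succ_apply] at h
    obtain ⟨l, v, S⟩ := c
    cases l with
    | none =>
      exfalso
      have h1 : flip bind (TM2.step M) (some (⟨none, v, S⟩ : TM2.Cfg Γ Λ σ)) = none := rfl
      have h2 : ∀ m, (flip bind (TM2.step M))^[m] (none : Option (TM2.Cfg Γ Λ σ)) = none := by
        intro m
        exact iterate_fixed rfl m
      rw [h1, h2] at h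
      exact Option.some_ne_none _ h.symm
    | some l =>
      have h1 : flip bind (TM2.step M) (some (⟨some l, v, S⟩ : TM2.Cfg Γ Λ σ)) =
        some (stepAux (M l) v S) := rfl
      rw [h1] at h
      obtain ⟨hS, e2, e1⟩ := hR
      obtain ⟨q, S'⟩ := d
      simp only at e1 e2
      subst e1 e2
      obtain ⟨t, ht, hR'⟩ := sim1 L M k0 (M l) (mem_allSt M l) (hM l) v S hS
      obtain ⟨t', ht', hR''⟩ := ih _ _ _ hR' h
      refine ⟨t' + t, ?_, ?_⟩
      · have h3 : ssize (M l) ≤ bigC M := Finset.le_sup (f := ssize) (mem_allSt M l)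
        have : (n + 1) * bigC M = n * bigC M + bigC M := by ring
        omega
      · rw [iterate_add_apply]
        exact hR''

/-- The symbols pushed on the stack `k` by a statement. -/
noncomputable def pushed (k : K) : Stmt Γ Λ σ → List (Γ k)
  | .push k' f q => (if h : k' = k then
      (Finset.univ : Finset σ).toList.map (fun v => h ▸ f v) else []) ++ pushed k q
  | .peek _ _ q => pushed k q
  | .pop _ _ q => pushed k q
  | .load _ q => pushed k q
  | .branch _ q₁ q₂ => pushed k q₁ ++ pushed k q₂
  | .goto _ => []
  | .halt => []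

omit [Fintype K] [Fintype Λ] in
theorem okS_of (q : Stmt Γ Λ σ) (h : ∀ k, ∀ a ∈ pushed k q, a ∈ L k) : okS L q := by
  induction q with
  | push k f q ih =>
    refine ⟨fun v => h k _ ?_, ih fun k a ha => h k a ?_⟩
    · simp only [pushed, dite_true, List.mem_append, List.mem_map]
      exact Or.inl ⟨v, Finset.mem_toList.2 (Finset.mem_univ v), rfl⟩
    · simp only [pushed, List.mem_append]
      exact Or.inr ha
  | peek k f q ih => exact ih h
  | pop k f q ih => exact ih h
  | load a q ih => exact ih h
  | branch p q₁ q₂ ih₁ ih₂ =>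
    refine ⟨ih₁ fun k a ha => h k a ?_, ih₂ fun k a ha => h k a ?_⟩
    · simp only [pushed, List.mem_append]; exact Or.inl ha
    · simp only [pushed, List.mem_append]; exact Or.inr ha
  | goto l => trivial
  | halt => trivial

end

/-- Every function computed by a machine has a code. -/
theorem exists_code {α β : Type} {ea : α → List Bool} {eb : β → List Bool} {f : α → β}
    (M : TM2ComputableInTime ea eb f) :
    ∃ (c : T) (C : ℕ), ∀ (x : α) (t : ℕ), C * M.time (ea x).length ≤ t →
      U c (ea x) t = some (eb (f x)) := by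
  classical
  obtain ⟨⟨tm, iA, oA⟩, time, hM⟩ := M
  haveI := tm.kFin
  haveI := tm.ΛFin
  haveI := tm.σFin
  let L : ∀ k, List (tm.Γ k) := fun k =>
    ((if h : k = tm.k₀ then [h ▸ iA.symm false, h ▸ iA.symm true] else []) ++
      (if h : k = tm.k₁ then [h ▸ oA.symm false, h ▸ oA.symm true] else [])) ++
      (Finset.univ : Finset tm.Λ).toList.flatMap fun l => pushed k (tm.m l)
  have hL0 : ∀ b, iA.symm b ∈ L tm.k₀ := by
    intro b
    cases b <;> simp [L]
  have hL1 : ∀ b, oA.symm b ∈ L tm.k₁ := by
    intro b
    cases b <;> simp [L]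
  have hok : ∀ l, okS L (tm.m l) := by
    intro l
    refine okS_of L (tm.m l) fun k a ha => ?_
    simp only [L, List.mem_append]
    refine Or.inr (List.mem_flatMap.2 ⟨l, Finset.mem_toList.2 (Finset.mem_univ l), ha⟩)
  simp only at hM ⊢
  let p := prog L tm.m tm.k₀
  let c : T := ofList [ofNum (Fintype.card tm.K), ofNum (kn tm.k₀), ofNum (kn tm.k₁),
    ofNum (sn L tm.k₀ (iA.symm false)), ofNum (sn L tm.k₀ (iA.symm true)),
    ofNum (sn L tm.k₁ (oA.symm true)), ofNum (qn tm.m (tm.m tm.main) tm.initialState), p]
  refine ⟨c, bigC tm.m, fun x t ht => ?_⟩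
  obtain ⟨⟨n, hn⟩, hle⟩ := hM x
  have e0 : entN c 0 = Fintype.card tm.K := by simp [c, entN, ent]
  have e1 : entN c 1 = kn tm.k₀ := by simp [c, entN, ent]
  have e2 : entN c 2 = kn tm.k₁ := by simp [c, entN, ent]
  have e3 : entN c 3 = sn L tm.k₀ (iA.symm false) := by simp [c, entN, ent]
  have e4 : entN c 4 = sn L tm.k₀ (iA.symm true) := by simp [c, entN, ent]
  have e5 : entN c 5 = sn L tm.k₁ (oA.symm true) := by simp [c, entN, ent]
  have e6 : entN c 6 = qn tm.m (tm.m tm.main) tm.initialState := by simp [c, entN, ent]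
  have e7 : ent c 7 = prog L tm.m tm.k₀ := by simp [c, ent, p]
  have hrel : Rel L tm.m tm.k₀ (initList tm (List.map iA.invFun (ea x))) (init c (ea x)) := by
    have h1 : (initList tm (List.map iA.invFun (ea x))).stk =
        update (fun _ => []) tm.k₀ (List.map iA.invFun (ea x)) := by
      funext k
      by_cases hk : k = tm.k₀
      · subst hk
        simp [initList]
      · simp [initList, hk]
    refine ⟨?_, ?_, ?_⟩
    · rw [h1]
      refine Live.update L (fun k a ha => by simp at ha) ?_
      intro a ha
      obtain ⟨b, _, rfl⟩ := List.mem_map.1 ha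
      exact hL0 b
    · rw [h1, ← setAt_encS]
      have h2 : encS L (fun _ => [] : ∀ k : tm.K, List (tm.Γ k)) =
          List.replicate (Fintype.card tm.K) [] := by
        apply List.ext_getElem
        · simp [encS]
        · intro i h1 h2
          simp [encS]
      rw [h2, init, e0, e1, e3, e4, List.map_map]
      simp only
      congr 1
      apply List.map_congr_left
      intro b _
      cases b <;> simp
    · simp only [init, e6, initList]
  obtain ⟨t', ht', hR⟩ := simn L tm.m hok tm.k₀ n _ _ _ hrel hn
  have ht2 : t' ≤ t := by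
    refine ht'.trans (le_trans ?_ ht)
    rw [Nat.mul_comm]
    exact Nat.mul_le_mul_left _ hle
  refine U_mono (t := t') ?_ ht2
  obtain ⟨_, hR1, hR2⟩ := hR
  have hR2 : (tlist (ent (prog L tm.m tm.k₀)
    ((FP.step (prog L tm.m tm.k₀))^[t'] (init c (ea x))).1)).isEmpty = true := hR2
  unfold U
  simp only [e7, e2, e5]
  rw [if_pos hR2, hR1, getD_encS, List.map_map, Option.some_inj]
  have h1 : (haltList tm (List.map oA.invFun (eb (f x)))).stk tm.k₁ =
      List.map oA.invFun (eb (f x)) := by
    simp [haltList]
  rw [h1, List.map_map]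
  conv_rhs => rw [← List.map_id (eb (f x))]
  apply List.map_congr_left
  intro b _
  simp only [comp_apply, id, Equiv.invFun_as_coe]
  cases b
  · rw [decide_eq_false_iff_not]
    intro h
    have := oA.symm.injective (sn_inj L (hL1 false) h)
    exact absurd this (by decide)
  · simp

end Pool.Agent.Lib.MP_b9add9_lc.FP
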