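import Pool.Agent.Lib.PolyTime.Lists
import Mathlib.Tactic

/-!
# An interpreter for stack machines

(Taken over from helper86's library for MP_7fc3ed_lc, in a separate namespace.)
Any tree is read as the code of a stack machine; `U M x t` is its result on input `x` after `t`
steps, and this is a polynomial-time computable function of all arguments.
-/

namespace Pool.Agent.Lib.MP_b9add9_lc.FP

open Pool.Agent.PolyTime Function

attribute [fun_prop] PT PT.id PT.const PT.comp PT.pair PT.fst PT.snd PT.add PT.sub PT.mul PT.cons
  PT.append PT.tail PT.take PT.drop PT.listGetD PT.length PT.reverse PT.le PT.lt PT.natEq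
  PT.iteProp PT.ite PT.map PT.range PT.filter PT.all PT.any PT.and PT.or PT.not PT.decAnd
  PT.decOr PT.decNot PT.some PT.getD PT.mod PT.div PT.max PT.min PT.replicate PT.flatten
  PT.isNil PT.isSome PT.cond PT.flatMap PT.treeEq PT.head? PT.getElem?

variable {α β γ δ σ : Type*} [Rep α] [Rep β] [Rep γ] [Rep δ] [Rep σ]

/-- `Bdd` for simple functions. -/
theorem bdd_of_le_sz {f : α → ℕ} {g : α → β} (hg : PT g) (h : ∀ a, f a ≤ sz (g a)) : Bdd f :=
  hg.bdd.mono h

theorem bdd_nat {f : α → ℕ} (hf : PT f) : Bdd f :=
  bdd_of_le_sz hf fun a => by rw [sz_nat]; omega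

@[fun_prop]
theorem pt_boolEq {f g : α → Bool} (hf : PT f) (hg : PT g) :
    PT (fun a => decide (f a = g a)) :=
  (PT.ite hf hg hg.not).congr fun a => by cases f a <;> cases g a <;> rfl

/-- The identity on bits, as a proposition. -/
@[fun_prop]
theorem pt_boolTrue {f : α → Bool} (hf : PT f) : PT (fun a => decide (f a = true)) :=
  hf.congr fun a => by simp

@[fun_prop]
theorem pt_headD {f : α → List β} {g : α → β} (hf : PT f) (hg : PT g) :
    PT (fun a => (f a).headD (g a)) :=
  (PT.getD (PT.head? hf) hg).congr fun a => by cases f a <;> rfl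

/-- Head of a list of numbers plus one, `0` for the empty list. -/
theorem pt_optMap {f : α → Option β} {g : α → β → γ} (hf : PT f)
    (hg : PT (fun p : α × β => g p.1 p.2)) : PT (fun a => (f a).map (g a)) :=
  (PT.optionCases (g := fun a b => some (g a b)) hf (PT.const none) hg.some).congr fun a => by
    cases f a <;> rfl

attribute [fun_prop] pt_optMap

/-- Iteration of a function in context, a given number of times. -/
theorem pt_iter {n : α → ℕ} {f : α → σ} {g : α → σ → σ} (hn : PT n) (hf : PT f)
    (hg : PT (fun p : α × σ => g p.1 p.2)) {B : α → ℕ} (hB : Bdd B)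
    (h : ∀ a, ∀ m ≤ n a, sz ((g a)^[m] (f a)) ≤ B a) :
    PT (fun a => (g a)^[n a] (f a)) := by
  have key : ∀ (a : α) (m : ℕ), Nat.rec (motive := fun _ => σ) (f a) (fun _ s => g a s) m =
      (g a)^[m] (f a) := by
    intro a m
    induction m with
    | zero => rfl
    | succ m ih => rw [Function.iterate_succ_apply', ← ih]
  refine (PT.natRec (g := fun a _ s => g a s) hn hf ?_ hB ?_).congr fun a => key a (n a)
  · exact PT.comp hg (PT.pair PT.id.fst PT.id.snd.snd)
  · intro a m hm
    rw [key]
    exact h a m hm

/-- Capped powers. -/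
theorem capPow_step (a b t : ℕ) :
    Nat.rec (motive := fun _ => ℕ) (min 1 t) (fun _ s => min (s * a) t) b = min (a ^ b) t := by
  induction b with
  | zero => simp
  | succ b ih =>
    simp only [ih, pow_succ]
    rcases Nat.le_total (a ^ b) t with h | h
    · rw [Nat.min_eq_left h]
    · rw [Nat.min_eq_right h]
      rcases Nat.eq_zero_or_pos a with h0 | h0
      · subst h0
        rcases Nat.eq_zero_or_pos b with hb | hb
        · subst hb; simp
        · rw [Nat.zero_pow hb] at h; simp
      · rw [Nat.min_eq_right (Nat.le_mul_of_pos_right t h0),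
          Nat.min_eq_right (h.trans (Nat.le_mul_of_pos_right _ h0))]

@[fun_prop]
theorem pt_capPow {f g h : α → ℕ} (hf : PT f) (hg : PT g) (hh : PT h) :
    PT (fun a => min (f a ^ g a) (h a)) := by
  refine (PT.natRec (g := fun a _ s => min (s * f a) (h a)) hg (f := fun a => min 1 (h a))
    (by fun_prop) (by fun_prop) (B := fun a => 2 * h a + 1) ?_ ?_).congr
      fun a => capPow_step (f a) (g a) (h a)
  · exact ((Bdd.const 2).mul (bdd_nat hh)).add (Bdd.const 1)
  · intro a m _
    rw [capPow_step, sz_nat]
    omega

end Pool.Agent.Lib.MP_b9add9_lc.FP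

namespace Pool.Agent.Lib.MP_b9add9_lc.FP

open Pool.Agent.PolyTime

/-- The list of trees along the right spine. -/
def tlist : T → List T
  | .nil => []
  | .cons a b => a :: tlist b

/-- The tree with a given list of trees along its right spine. -/
def ofList : List T → T
  | [] => .nil
  | a :: l => .cons a (ofList l)

@[simp] theorem tlist_ofList (l : List T) : tlist (ofList l) = l := by
  induction l with
  | nil => rfl
  | cons a l ih => simp [ofList, tlist, ih]

/-- The number given by a tree: the length of its right spine. -/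
def tnum (t : T) : ℕ := (tlist t).length

/-- A tree giving a number. -/
def ofNum (n : ℕ) : T := ofList (List.replicate n .nil)

@[simp] theorem tnum_ofNum (n : ℕ) : tnum (ofNum n) = n := by simp [tnum, ofNum]

/-- The `i`-th entry of a tree. -/
def ent (t : T) (i : ℕ) : T := (tlist t).getD i .nil

/-- The `i`-th entry of a tree, as a number. -/
def entN (t : T) (i : ℕ) : ℕ := tnum (ent t i)

/-- Replace an entry of a list. -/
def setAt (S : List (List ℕ)) (k : ℕ) (l : List ℕ) : List (List ℕ) :=
  S.take k ++ l :: S.drop (k + 1)

/-- The symbol on top of a stack plus one, `0` if the stack is empty. -/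
def topN : List ℕ → ℕ
  | [] => 0
  | a :: _ => a + 1

/-- Configurations: a state, and the contents of the stacks. -/
abbrev Conf : Type := ℕ × List (List ℕ)

/-- One step of the machine with program `p`. The instruction in state `q` is `ent p q`:
* `nil`: halt;
* `[0, k, tab]`: read and remove the top symbol `a` of stack `k`, go to the state `tab[a + 1]`
  (to `tab[0]` if the stack is empty);
* `[1, k, tab]`: the same without removing the symbol;
* otherwise `[_, k, [a, q']]`: put `a` on the stack `k` and go to `q'`. -/
def step (p : T) (c : Conf) : Conf :=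
  let I := ent p c.1
  if (tlist I).isEmpty then c else
  let k := entN I 1
  let tab := ent I 2
  let l := c.2.getD k []
  let kind := entN I 0
  if kind = 0 then
    (entN tab (topN l), setAt c.2 k l.tail)
  else if kind = 1 then
    (entN tab (topN l), c.2)
  else
    (entN tab 1, setAt c.2 k (entN tab 0 :: l))

/-- The initial configuration. The entries of a code are: the number of stacks, the input stack,
the output stack, the input symbols of `0` and `1`, the output symbol of `1`, the initial state,
and the program. -/
def init (M : T) (x : List Bool) : Conf :=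
  (entN M 6, setAt (List.replicate (entN M 0) []) (entN M 1)
    (x.map fun b => if b then entN M 4 else entN M 3))

/-- The result of the machine with code `M` on input `x` after `t` steps (`none` if it has not
halted). -/
def U (M : T) (x : List Bool) (t : ℕ) : Option (List Bool) :=
  let c := (step (ent M 7))^[t] (init M x)
  if (tlist (ent (ent M 7) c.1)).isEmpty then
    some ((c.2.getD (entN M 2) []).map fun a => decide (a = entN M 5))
  else none

theorem step_halted {p : T} {c : Conf} (h : (tlist (ent p c.1)).isEmpty) : step p c = c := by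
  simp [step, h]

/-- The result does not change with more time. -/
theorem U_mono {M : T} {x y : List Bool} {t t' : ℕ} (h : U M x t = some y) (ht : t ≤ t') :
    U M x t' = some y := by
  unfold U at h ⊢
  obtain ⟨d, rfl⟩ := Nat.exists_eq_add_of_le ht
  by_cases hh : (tlist (ent (ent M 7) ((step (ent M 7))^[t] (init M x)).1)).isEmpty
  · have : (step (ent M 7))^[t + d] (init M x) = (step (ent M 7))^[t] (init M x) := by
      rw [Nat.add_comm, Function.iterate_add_apply]
      exact Function.iterate_fixed (step_halted hh) d
    simp only [this]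
    exact h
  · simp [hh] at h

theorem U_unique {M : T} {x y y' : List Bool} {t t' : ℕ} (h : U M x t = some y)
    (h' : U M x t' = some y') : y = y' := by
  have h1 := U_mono h (le_max_left t t')
  have h2 := U_mono h' (le_max_right t t')
  rw [h1] at h2
  exact Option.some_injective _ h2

theorem getD_setAt_self {S : List (List ℕ)} {k : ℕ} {l : List ℕ} (hk : k ≤ S.length) :
    (setAt S k l).getD k [] = l := by
  unfold setAt
  rw [List.getD_append_right _ _ _ _ (by simp)]
  simp [hk]

end Pool.Agent.Lib.MP_b9add9_lc.FP

namespace Pool.Agent.Lib.MP_b9add9_lc.FP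

open Pool.Agent.PolyTime

variable {α β γ δ σ : Type*} [Rep α] [Rep β] [Rep γ] [Rep δ] [Rep σ]

theorem toT_tlist (t : T) : toT (tlist t) = t := by
  induction t with
  | nil => rfl
  | cons a b _ ih => simp [tlist, ih]

@[fun_prop]
theorem pt_tlist {f : α → T} (hf : PT f) : PT (fun a => tlist (f a)) :=
  Comp.congr hf (fun _ => rfl) fun a => (toT_tlist (f a)).symm

theorem sz_tlist (t : T) : sz (tlist t) = t.size := by rw [sz, toT_tlist]

@[fun_prop]
theorem pt_tnum {f : α → T} (hf : PT f) : PT (fun a => tnum (f a)) :=
  PT.length (pt_tlist hf)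

@[fun_prop]
theorem pt_ent {f : α → T} {g : α → ℕ} (hf : PT f) (hg : PT g) :
    PT (fun a => ent (f a) (g a)) :=
  PT.listGetD (pt_tlist hf) hg (PT.const _)

@[fun_prop]
theorem pt_entN {f : α → T} {g : α → ℕ} (hf : PT f) (hg : PT g) :
    PT (fun a => entN (f a) (g a)) := pt_tnum (pt_ent hf hg)

theorem tnum_le (t : T) : tnum t ≤ t.size := by
  rw [← sz_tlist]; exact length_le_sz _

theorem size_ent_le (t : T) (i : ℕ) : (ent t i).size ≤ t.size := by
  unfold ent
  by_cases h : i < (tlist t).length
  · rw [List.getD_eq_getElem _ _ h]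
    have := sz_mem_le (List.getElem_mem h)
    rw [sz_tlist] at this
    exact this
  · rw [List.getD_eq_default _ _ (by omega)]
    exact T.size_pos t

theorem entN_le (t : T) (i : ℕ) : entN t i ≤ t.size := (tnum_le _).trans (size_ent_le _ _)

@[fun_prop]
theorem pt_setAt {f : α → List (List ℕ)} {g : α → ℕ} {h : α → List ℕ} (hf : PT f) (hg : PT g)
    (hh : PT h) : PT (fun a => setAt (f a) (g a) (h a)) := by
  unfold setAt; fun_prop

@[fun_prop]
theorem pt_topN {f : α → List ℕ} (hf : PT f) : PT (fun a => topN (f a)) :=
  (PT.listCases (g := fun _ b _ => b + 1) hf (PT.const 0) PT.id.snd.fst.succ).congr fun a => by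
    cases f a <;> rfl

theorem step_eq (p : T) (c : Conf) : step p c =
    if (tlist (ent p c.1)).isEmpty then c else
    if entN (ent p c.1) 0 = 0 then
      (entN (ent (ent p c.1) 2) (topN (c.2.getD (entN (ent p c.1) 1) [])),
        setAt c.2 (entN (ent p c.1) 1) (c.2.getD (entN (ent p c.1) 1) []).tail)
    else if entN (ent p c.1) 0 = 1 then
      (entN (ent (ent p c.1) 2) (topN (c.2.getD (entN (ent p c.1) 1) [])), c.2)
    else
      (entN (ent (ent p c.1) 2) 1, setAt c.2 (entN (ent p c.1) 1)
        (entN (ent (ent p c.1) 2) 0 :: c.2.getD (entN (ent p c.1) 1) [])) := rfl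

@[fun_prop]
theorem pt_step {f : α → T} {g : α → Conf} (hf : PT f) (hg : PT g) :
    PT (fun a => step (f a) (g a)) := by
  simp only [step_eq]
  fun_prop

theorem sz_setAt (S : List (List ℕ)) (k : ℕ) (l : List ℕ) :
    sz (setAt S k l) + sz (S.getD k []) ≤ sz S + sz l + 2 := by
  unfold setAt
  have h1 := sz_append (S.take k) (l :: S.drop (k + 1))
  rw [sz_cons] at h1
  by_cases hk : k < S.length
  · have h2 := sz_append (S.take k) (S[k] :: S.drop (k + 1))
    rw [sz_cons, ← List.drop_eq_getElem_cons hk, List.take_append_drop] at h2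
    rw [List.getD_eq_getElem _ _ hk]
    omega
  · rw [List.getD_eq_default _ _ (by omega)]
    rw [List.take_of_length_le (by omega), List.drop_of_length_le (by omega)] at h1 ⊢
    simp only [sz_nil] at h1 ⊢
    omega

theorem sz_tail_le (l : List ℕ) : sz l.tail ≤ sz l := sz_sublist (List.tail_sublist l)

theorem step_bound (p : T) (c : Conf) : (step p c).1 ≤ max c.1 p.size ∧
    sz (step p c).2 ≤ sz c.2 + 2 * p.size + 4 := by
  have hs : ∀ i j, entN (ent (ent p c.1) i) j ≤ p.size := fun i j =>
    (entN_le _ _).trans ((size_ent_le _ _).trans (size_ent_le _ _))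
  rw [step_eq]
  split_ifs
  · exact ⟨le_max_left _ _, by omega⟩
  · refine ⟨(hs 2 _).trans (le_max_right _ _), ?_⟩
    have h1 := sz_setAt c.2 (entN (ent p c.1) 1) (c.2.getD (entN (ent p c.1) 1) []).tail
    have h2 := sz_tail_le (c.2.getD (entN (ent p c.1) 1) [])
    simp only
    omega
  · exact ⟨(hs 2 _).trans (le_max_right _ _), by simp only; omega⟩
  · refine ⟨(hs 2 _).trans (le_max_right _ _), ?_⟩
    have h1 := sz_setAt c.2 (entN (ent p c.1) 1)
      (entN (ent (ent p c.1) 2) 0 :: c.2.getD (entN (ent p c.1) 1) [])
    have h2 := hs 2 0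
    rw [sz_cons, sz_nat] at h1
    simp only
    omega

theorem iter_bound (p : T) (c : Conf) (m : ℕ) : ((step p)^[m] c).1 ≤ max c.1 p.size ∧
    sz ((step p)^[m] c).2 ≤ sz c.2 + m * (2 * p.size + 4) := by
  induction m with
  | zero => simp
  | succ m ih =>
    rw [Function.iterate_succ_apply']
    obtain ⟨h1, h2⟩ := step_bound p ((step p)^[m] c)
    refine ⟨h1.trans (by omega), ?_⟩
    have : (m + 1) * (2 * p.size + 4) = m * (2 * p.size + 4) + (2 * p.size + 4) := by ring
    omega

@[fun_prop]
theorem pt_steps {f : α → T} {g : α → Conf} {n : α → ℕ} (hf : PT f) (hg : PT g) (hn : PT n) :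
    PT (fun a => (step (f a))^[n a] (g a)) := by
  refine pt_iter (g := fun a c => step (f a) c) hn hg (by fun_prop)
    (B := fun a => 2 * (sz (g a) + sz (f a)) + sz (g a) + n a * (2 * sz (f a) + 4) + 2)
    ?_ ?_
  · exact ((((Bdd.const 2).mul (hg.bdd.add hf.bdd)).add hg.bdd).add
      ((bdd_nat hn).mul (((Bdd.const 2).mul hf.bdd).add (Bdd.const 4)))).add (Bdd.const 2)
  · intro a m hm
    obtain ⟨h1, h2⟩ := iter_bound (f a) (g a) m
    rw [sz_prod, sz_nat]
    have h3 : (g a).1 ≤ sz (g a) := by
      rw [sz_prod, sz_nat]; omega
    have h4 : sz (g a).2 ≤ sz (g a) := by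
      rw [sz_prod]; omega
    have h5 : m * (2 * (f a).size + 4) ≤ n a * (2 * (f a).size + 4) := Nat.mul_le_mul_right _ hm
    have h6 : sz (f a) = (f a).size := rfl
    have h7 : max (g a).1 (f a).size ≤ sz (g a) + sz (f a) := by omega
    rw [h6] at h7
    beta_reduce
    rw [h6]
    generalize (step (f a))^[m] (g a) = w at h1 h2 ⊢
    omega

@[fun_prop]
theorem pt_init {f : α → T} {g : α → List Bool} (hf : PT f) (hg : PT g) :
    PT (fun a => init (f a) (g a)) := by
  unfold init
  fun_prop

@[fun_prop]
theorem pt_U {f : α → T} {g : α → List Bool} {n : α → ℕ} (hf : PT f) (hg : PT g) (hn : PT n) :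
    PT (fun a => U (f a) (g a) (n a)) := by
  unfold U
  fun_prop

/-! ### Lengths -/

theorem length_setAt_le {S : List (List ℕ)} {k : ℕ} {l : List ℕ} {B : ℕ}
    (hS : ∀ l ∈ S, l.length ≤ B) (hl : l.length ≤ B) : ∀ l' ∈ setAt S k l, l'.length ≤ B := by
  intro l' h
  unfold setAt at h
  rw [List.mem_append, List.mem_cons] at h
  rcases h with h | rfl | h
  · exact hS _ (List.mem_of_mem_take h)
  · exact hl
  · exact hS _ (List.mem_of_mem_drop h)

theorem length_getD_le {S : List (List ℕ)} {k B : ℕ} (hS : ∀ l ∈ S, l.length ≤ B) :
    (S.getD k []).length ≤ B := by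
  by_cases hk : k < S.length
  · rw [List.getD_eq_getElem _ _ hk]; exact hS _ (List.getElem_mem hk)
  · rw [List.getD_eq_default _ _ (by omega)]; simp

theorem iter_length (p : T) (c : Conf) (B m : ℕ) (hS : ∀ l ∈ c.2, l.length ≤ B) :
    ∀ l ∈ ((step p)^[m] c).2, l.length ≤ B + m := by
  induction m with
  | zero => simpa using hS
  | succ m ih =>
    rw [Function.iterate_succ_apply', step_eq]
    generalize (step p)^[m] c = c' at ih
    have h1 : ∀ l ∈ c'.2, l.length ≤ B + (m + 1) := fun l hl => (ih l hl).trans (by omega)
    have h2 := length_getD_le (k := entN (ent p c'.1) 1) ih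
    split_ifs
    · exact h1
    · exact length_setAt_le h1 (by simp only [List.length_tail]; omega)
    · exact h1
    · exact length_setAt_le h1 (by simp only [List.length_cons]; omega)

theorem length_U {M : T} {x y : List Bool} {t : ℕ} (h : U M x t = some y) :
    y.length ≤ x.length + t := by
  unfold U at h
  simp only at h
  split_ifs at h
  rw [Option.some_inj] at h
  rw [← h, List.length_map]
  refine length_getD_le (iter_length _ _ _ _ ?_)
  intro l hl
  refine length_setAt_le (B := x.length) ?_ (by simp) l hl
  intro l' hl'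
  rw [List.mem_replicate] at hl'
  rw [hl'.2]; simp

end Pool.Agent.Lib.MP_b9add9_lc.FP

namespace Pool.Agent.Lib.MP_b9add9_lc.FP

open Pool.Agent.PolyTime Function

variable {α β γ δ σ : Type*} [Rep α] [Rep β] [Rep γ] [Rep δ] [Rep σ]

/-! ### Trees -/

/-- One parsing step. -/
def pstep : Bool → List T → List T
  | false, s => .nil :: s
  | true, a :: b :: s => .cons a b :: s
  | true, s => s

/-- The tree described at the beginning of a word. -/
def parse (l : List Bool) : T := (l.foldr pstep []).headD .nil

theorem foldr_enc (t : T) : ∀ s : List T, t.enc.foldr pstep s = t :: s := by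
  induction t with
  | nil => intro s; rfl
  | cons a b iha ihb =>
    intro s
    simp only [T.enc, List.foldr_cons, List.foldr_append, iha, ihb, pstep]

theorem parse_enc (t : T) (u : List Bool) : parse (t.enc ++ u) = t := by
  unfold parse
  rw [List.foldr_append, foldr_enc]
  rfl

theorem pstep_size (b : Bool) (s : List T) : sz (pstep b s) ≤ sz s + 2 := by
  cases b
  · simp only [pstep, sz_cons]
    change 1 + sz s + 1 ≤ _
    omega
  · match s with
    | [] => simp [pstep]
    | [a] => simp [pstep]
    | a :: b :: s =>
      simp only [pstep, sz_cons]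
      change (a.size + b.size + 1) + sz s + 1 ≤ a.size + (b.size + sz s + 1) + 1 + 2
      omega

theorem pstep_size' (l : List Bool) (s : List T) :
    sz (l.foldl (fun s b => pstep b s) s) ≤ sz s + 2 * l.length := by
  induction l generalizing s with
  | nil => simp
  | cons b l ih =>
    rw [List.foldl_cons, List.length_cons]
    have := ih (pstep b s)
    have := pstep_size b s
    omega

@[fun_prop]
theorem pt_tcons {f g : α → T} (hf : PT f) (hg : PT g) : PT (fun a => T.cons (f a) (g a)) :=
  Comp.pair hf hg

theorem pt_pstep : PT (fun p : Bool × List T => pstep p.1 p.2) := by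
  have h1 : PT (fun p : Bool × List T =>
      if p.1 then (if (p.2.tail).isEmpty then p.2 else
        T.cons (p.2.headD .nil) (p.2.tail.headD .nil) :: p.2.tail.tail)
      else T.nil :: p.2) := by fun_prop
  refine h1.congr ?_
  rintro ⟨b, s⟩
  cases b
  · rfl
  · match s with
    | [] => rfl
    | [a] => rfl
    | a :: b :: s => rfl

@[fun_prop]
theorem pt_parse {f : α → List Bool} (hf : PT f) : PT (fun a => parse (f a)) := by
  have h1 : PT (fun a => (f a).reverse.foldl (fun s b => pstep b s) []) := by
    refine PT.foldl (g := fun _ s b => pstep b s) hf.reverse (PT.const [])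
      (pt_pstep.comp (PT.pair PT.id.snd.snd PT.id.snd.fst)) (B := fun a => 1 + 2 * sz (f a))
      ((Bdd.const 1).add ((Bdd.const 2).mul hf.bdd)) ?_
    intro a l' hl'
    refine (pstep_size' l' []).trans ?_
    have h2 := hl'.length_le
    have h3 := length_le_sz (f a)
    simp only [List.length_reverse] at h2
    simp only [sz_nil]
    omega
  unfold parse
  have h2 : PT (fun a => ((f a).reverse.foldl (fun s b => pstep b s) []).headD .nil) := by
    fun_prop
  refine h2.congr fun a => ?_
  rw [List.foldl_reverse]

/-- A pairing of binary strings: `1 u₁ 1 u₂ ... 1 uₖ 0 v`. -/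
def pairStr (u v : List Bool) : List Bool := (u.flatMap fun b => [true, b]) ++ false :: v

/-! ### Pairs of strings -/

/-- One step of decoding. -/
def ustep (s : List Bool × List Bool) : List Bool × List Bool :=
  if s.2.headD false && !s.2.tail.isEmpty then (s.1 ++ [s.2.tail.headD false], s.2.tail.tail)
  else s

/-- Decoding of pairs. -/
def unpairStr (w : List Bool) : List Bool × List Bool :=
  ((ustep^[w.length] ([], w)).1, (ustep^[w.length] ([], w)).2.tail)

theorem ustep_iter (u v : List Bool) : ∀ (n : ℕ) (acc : List Bool), u.length ≤ n →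
    ustep^[n] (acc, pairStr u v) = (acc ++ u, false :: v) := by
  induction u with
  | nil =>
    intro n acc _
    have : ustep (acc, pairStr [] v) = (acc, pairStr [] v) := rfl
    rw [iterate_fixed this]
    simp [pairStr]
  | cons b u ih =>
    intro n acc hn
    obtain ⟨m, rfl⟩ : ∃ m, n = m + 1 := ⟨n - 1, by simp at hn; omega⟩
    rw [iterate_succ_apply]
    have : ustep (acc, pairStr (b :: u) v) = (acc ++ [b], pairStr u v) := by
      simp [ustep, pairStr]
    rw [this, ih m _ (by simpa using hn)]
    simp

theorem unpairStr_pairStr (u v : List Bool) : unpairStr (pairStr u v) = (u, v) := by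
  unfold unpairStr
  have hl : u.length ≤ (pairStr u v).length := by
    unfold pairStr
    rw [List.length_append]
    have : u.length ≤ (u.flatMap fun b => [true, b]).length := by
      induction u with
      | nil => simp
      | cons b u ih => simp only [List.flatMap_cons, List.length_append, List.length_cons]; omega
    omega
  rw [ustep_iter u v _ [] hl]
  simp

theorem ustep_size (s : List Bool × List Bool) : sz (ustep s) ≤ sz s := by
  obtain ⟨u, w⟩ := s
  unfold ustep
  simp only
  split_ifs with h
  · match w with
    | [] => simp at h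
    | [b] => simp at h
    | b :: c :: w =>
      simp only [List.tail_cons, List.headD_cons, sz_pair, sz_cons]
      have := sz_append u [c]
      simp only [sz_cons, sz_nil] at this
      omega
  · exact le_rfl

@[fun_prop]
theorem pt_unpairStr {f : α → List Bool} (hf : PT f) : PT (fun a => unpairStr (f a)) := by
  have h1 : PT (fun a => ustep^[(f a).length] (([], f a) : List Bool × List Bool)) := by
    refine pt_iter (g := fun _ s => ustep s) (by fun_prop) (by fun_prop)
      (by unfold ustep; fun_prop) (B := fun a => sz (f a) + 2)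
      (hf.bdd.add (Bdd.const 2)) ?_
    intro a m _
    have : ∀ (m : ℕ) (s : List Bool × List Bool), sz (ustep^[m] s) ≤ sz s := by
      intro m
      induction m with
      | zero => intro s; exact le_rfl
      | succ m ih => intro s; rw [iterate_succ_apply]; exact (ih _).trans (ustep_size s)
    refine (this m _).trans ?_
    simp only [sz_pair, sz_nil]
    omega
  unfold unpairStr
  fun_prop



attribute [irreducible] unpairStr

end Pool.Agent.Lib.MP_b9add9_lc.FP
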